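import Pool.Agent.Helper9.SK.St

/-!
# Project SK, module GAL: the inequality of Gallagher by positivity
-/

set_option autoImplicit false

noncomputable section

namespace Pool.Agent.Helper69.SK

open Pool.Agent.Helper9.SK
open Finset ArithmeticFunction MeasureTheory
open Pool.Agent.Helper48.BK (ex th Pz Vz lz gs Sx Apx)
open Pool.Agent.Helper60.GP (IsB II Err JJ)
open Pool.Agent.Helper15.AB (Th)
open Pool.Agent.Helper58.SU (dsc StWinu)

private lemma exadd (s t : ℝ) : ex (s + t) = ex s * ex t := by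
  unfold ex
  rw [← Complex.exp_add]
  congr 1
  push_cast
  ring

private lemma exconj (t : ℝ) : (starRingEnd ℂ) (ex t) = ex (-t) := by
  unfold ex
  rw [← Complex.exp_conj]
  congr 1
  simp only [map_mul, Complex.conj_ofReal, Complex.conj_I, map_ofNat]
  push_cast
  ring

private lemma expow (t : ℝ) (n : ℕ) : ex t ^ n = ex (n * t) := by
  unfold ex
  rw [← Complex.exp_nat_mul]
  congr 1
  push_cast
  ring

private lemma exint (m : ℤ) : ex (m : ℝ) = 1 := by
  unfold ex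
  rw [Complex.exp_eq_one_iff]
  exact ⟨m, by push_cast; ring⟩

private lemma excont : Continuous ex := by
  unfold ex
  fun_prop

private lemma exorth (m : ℤ) : ∫ β in (0 : ℝ)..1, ex ((m : ℝ) * β) = if m = 0 then 1 else 0 := by
  split_ifs with h
  · subst h
    simp [ex]
  · have hc : (2 * Real.pi * Complex.I * m : ℂ) ≠ 0 :=
      mul_ne_zero Complex.two_pi_I_ne_zero (by exact_mod_cast h)
    have h1 : ∀ β : ℝ, ex ((m : ℝ) * β) = Complex.exp (2 * Real.pi * Complex.I * m * β) := by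
      intro β
      unfold ex
      congr 1
      push_cast
      ring
    simp_rw [h1]
    rw [integral_exp_mul_complex hc]
    have h2 : Complex.exp (2 * Real.pi * Complex.I * m * ((1 : ℝ) : ℂ)) = 1 := by
      have := exint m
      unfold ex at this
      rw [← this]
      congr 1
      push_cast
      ring
    rw [h2]
    simp

private lemma pars (s : Finset ℕ) (c : ℕ → ℂ) :
    ∫ β in (0 : ℝ)..1, ‖∑ k ∈ s, c k * ex ((k : ℝ) * β)‖ ^ 2 = ∑ k ∈ s, ‖c k‖ ^ 2 := by
  have h0 : ∀ β : ℝ, ((‖∑ k ∈ s, c k * ex ((k : ℝ) * β)‖ ^ 2 : ℝ) : ℂ) =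
      ∑ k ∈ s, ∑ l ∈ s, c k * (starRingEnd ℂ) (c l) * ex ((((k : ℤ) - (l : ℤ) : ℤ) : ℝ) * β) := by
    intro β
    rw [Complex.ofReal_pow, ← Complex.mul_conj', map_sum, sum_mul_sum]
    refine sum_congr rfl fun k _ => sum_congr rfl fun l _ => ?_
    rw [map_mul, exconj]
    have : ex ((((k : ℤ) - (l : ℤ) : ℤ) : ℝ) * β) = ex ((k : ℝ) * β) * ex (-((l : ℝ) * β)) := by
      rw [← exadd]
      congr 1
      push_cast
      ring
    rw [this]
    ring
  have hint : ∀ k l : ℕ, IntervalIntegrable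
      (fun β : ℝ => c k * (starRingEnd ℂ) (c l) * ex ((((k : ℤ) - (l : ℤ) : ℤ) : ℝ) * β))
      volume 0 1 := by
    intro k l
    apply Continuous.intervalIntegrable
    exact continuous_const.mul (excont.comp (continuous_const.mul continuous_id))
  have h1 : ((∫ β in (0 : ℝ)..1, ‖∑ k ∈ s, c k * ex ((k : ℝ) * β)‖ ^ 2 : ℝ) : ℂ) =
      ((∑ k ∈ s, ‖c k‖ ^ 2 : ℝ) : ℂ) := by
    rw [← intervalIntegral.integral_ofReal]
    simp_rw [h0]
    have hint2 : ∀ k ∈ s, IntervalIntegrable (fun β : ℝ => ∑ l ∈ s, c k * (starRingEnd ℂ) (c l) *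
        ex ((((k : ℤ) - (l : ℤ) : ℤ) : ℝ) * β)) volume 0 1 := by
      intro k _
      apply Continuous.intervalIntegrable
      refine continuous_finsetSum _ fun l _ => ?_
      exact continuous_const.mul (excont.comp (continuous_const.mul continuous_id))
    rw [intervalIntegral.integral_finsetSum hint2, Complex.ofReal_sum]
    refine sum_congr rfl fun k hk => ?_
    rw [Complex.ofReal_pow]
    rw [intervalIntegral.integral_finsetSum (fun l _ => hint k l)]
    have h2 : ∀ l ∈ s, (∫ β in (0 : ℝ)..1, c k * (starRingEnd ℂ) (c l) *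
        ex ((((k : ℤ) - (l : ℤ) : ℤ) : ℝ) * β)) =
        if k = l then c k * (starRingEnd ℂ) (c l) else 0 := by
      intro l _
      rw [intervalIntegral.integral_const_mul, exorth]
      by_cases hkl : k = l
      · subst hkl
        simp
      · have : ((k : ℤ) - (l : ℤ)) ≠ 0 := by omega
        simp [this, hkl]
    rw [sum_congr rfl h2, sum_ite_eq s k]
    simp only [hk, if_true]
    rw [Complex.mul_conj']
  exact_mod_cast h1

/-- lower bound for the Dirichlet kernel -/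
private lemma lowF (h : ℕ) (hh : 1 ≤ h) (β : ℝ) (hβ : 2 * h * |β| ≤ 1) :
    (h : ℝ) ^ 2 ≤ 3 * ‖∑ j ∈ range h, ex ((j : ℝ) * β)‖ ^ 2 := by
  have hh0 : (1 : ℝ) ≤ h := by exact_mod_cast hh
  rcases eq_or_ne β 0 with h0 | h0
  · subst h0
    have : ∑ j ∈ range h, ex ((j : ℝ) * 0) = (h : ℂ) := by simp [ex]
    rw [this, Complex.norm_natCast]
    nlinarith
  have hb : 0 < |β| := abs_pos.mpr h0
  have hnorm : ∀ t : ℝ, ‖ex t - 1‖ = 2 * |Real.sin (Real.pi * t)| := by
    intro t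
    have h1 : ex t = Complex.exp (Complex.I * ((2 * Real.pi * t : ℝ) : ℂ)) := by
      unfold ex
      congr 1
      push_cast
      ring
    rw [h1, Complex.norm_exp_I_mul_ofReal_sub_one]
    rw [norm_mul, Real.norm_eq_abs, Real.norm_eq_abs, abs_of_pos (by norm_num : (0 : ℝ) < 2)]
    congr 3
    ring
  have hgeo : (∑ j ∈ range h, ex ((j : ℝ) * β)) * (ex β - 1) = ex ((h : ℝ) * β) - 1 := by
    have h1 : ∀ j ∈ range h, ex ((j : ℝ) * β) = ex β ^ j := fun j _ => (expow β j).symm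
    rw [sum_congr rfl h1, geom_sum_mul, expow]
  have hn := congrArg norm hgeo
  rw [norm_mul, hnorm, hnorm] at hn
  have hpi := Real.pi_pos
  have hs1 : |Real.sin (Real.pi * β)| ≤ Real.pi * |β| := by
    calc |Real.sin (Real.pi * β)| ≤ |Real.pi * β| := Real.abs_sin_le_abs
      _ = Real.pi * |β| := by rw [abs_mul, abs_of_pos hpi]
  have hs2 : 2 * (h * |β|) ≤ |Real.sin (Real.pi * (h * β))| := by
    have h1 : |Real.sin (Real.pi * (h * β))| = |Real.sin (Real.pi * (h * |β|))| := by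
      rcases abs_choice β with h2 | h2
      · rw [h2]
      · rw [h2, show Real.pi * (h * -β) = -(Real.pi * (h * β)) by ring, Real.sin_neg, abs_neg]
    rw [h1]
    have h2 : 0 ≤ Real.pi * (h * |β|) := by positivity
    have h3 : Real.pi * (h * |β|) ≤ Real.pi / 2 := by nlinarith
    have h4 := Real.mul_le_sin h2 h3
    have h5 : 2 / Real.pi * (Real.pi * (h * |β|)) = 2 * (h * |β|) := by
      field_simp
    rw [h5] at h4
    exact h4.trans (le_abs_self _)
  set F := ‖∑ j ∈ range h, ex ((j : ℝ) * β)‖ with hF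
  have hF0 : 0 ≤ F := norm_nonneg _
  have h6 : 2 * (h : ℝ) ≤ Real.pi * F := by
    have h7 : 2 * (h * |β|) ≤ F * (Real.pi * |β|) := by
      have h8 := mul_le_mul_of_nonneg_left hs1 hF0
      linarith
    have h9 : (2 * (h : ℝ)) * |β| ≤ (Real.pi * F) * |β| := by linarith
    exact le_of_mul_le_mul_right h9 hb
  have hpi2 : Real.pi ^ 2 ≤ 12 := by
    have := Real.pi_lt_d2
    nlinarith
  have h10 : (2 * (h : ℝ)) ^ 2 ≤ (Real.pi * F) ^ 2 := by
    apply pow_le_pow_left₀ (by positivity) h6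
  have h11 : (Real.pi * F) ^ 2 ≤ 12 * F ^ 2 := by
    rw [mul_pow]
    exact mul_le_mul_of_nonneg_right hpi2 (sq_nonneg _)
  nlinarith

private lemma prodF (N h : ℕ) (E : ℕ → ℂ) (β : ℝ) :
    (∑ n ∈ Ioc 0 N, E n * ex ((n : ℝ) * β)) * (∑ j ∈ range h, ex ((j : ℝ) * β)) =
      ∑ k ∈ Icc 1 (N + h), (∑ n ∈ (Ioc 0 N).filter (fun n => k < n + h ∧ n ≤ k), E n) *
        ex ((k : ℝ) * β) := by
  have h1 : ∀ k ∈ Icc 1 (N + h), (∑ n ∈ (Ioc 0 N).filter (fun n => k < n + h ∧ n ≤ k), E n) *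
      ex ((k : ℝ) * β) = ∑ n ∈ Ioc 0 N, if k < n + h ∧ n ≤ k then E n * ex ((k : ℝ) * β) else 0 := by
    intro k _
    rw [sum_mul, sum_filter]
  rw [sum_congr rfl h1, sum_comm, sum_mul]
  refine sum_congr rfl fun n hn => ?_
  rw [mem_Ioc] at hn
  rw [← sum_filter]
  have h2 : (Icc 1 (N + h)).filter (fun k => k < n + h ∧ n ≤ k) = Ico n (n + h) := by
    ext k
    simp only [mem_filter, mem_Icc, mem_Ico]
    omega
  rw [h2, sum_Ico_eq_sum_range, Nat.add_sub_cancel_left, mul_sum]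
  refine sum_congr rfl fun j _ => ?_
  rw [mul_assoc, ← exadd]
  congr 2
  push_cast
  ring

/-- module GAL of project SK -/
theorem hGAL : StGal := by
  intro N h E η hh hη hhη
  have hh0 : (1 : ℝ) ≤ h := by exact_mod_cast hh
  have hhp : (0 : ℝ) < (h : ℝ) ^ 2 := by positivity
  set P : ℝ → ℂ := fun β => (∑ n ∈ Ioc 0 N, E n * ex ((n : ℝ) * β)) *
    (∑ j ∈ range h, ex ((j : ℝ) * β)) with hP
  have hcs : Continuous (fun β : ℝ => ∑ n ∈ Ioc 0 N, E n * ex ((n : ℝ) * β)) := by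
    refine continuous_finsetSum _ fun n _ => ?_
    exact continuous_const.mul (excont.comp (continuous_const.mul continuous_id))
  have hcF : Continuous (fun β : ℝ => ∑ j ∈ range h, ex ((j : ℝ) * β)) := by
    refine continuous_finsetSum _ fun n _ => ?_
    exact excont.comp (continuous_const.mul continuous_id)
  have hcP : Continuous (fun β => ‖P β‖ ^ 2) := (hcs.mul hcF).norm.pow 2
  have hη2 : η ≤ 1 / 2 := by nlinarith
  have hex1 : ∀ (k : ℕ) (β : ℝ), ex ((k : ℝ) * (β + 1)) = ex ((k : ℝ) * β) := by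
    intro k β
    rw [mul_add, exadd, mul_one]
    have := exint (k : ℤ)
    rw [Int.cast_natCast] at this
    rw [this, mul_one]
  have hper : Function.Periodic (fun β => ‖P β‖ ^ 2) 1 := by
    intro β
    simp only [hP, hex1]
  have hmono : ∫ β in (-η)..η, ‖∑ n ∈ Ioc 0 N, E n * ex ((n : ℝ) * β)‖ ^ 2 ≤
      ∫ β in (-η)..η, 3 / (h : ℝ) ^ 2 * ‖P β‖ ^ 2 := by
    apply intervalIntegral.integral_mono_on (by linarith)
    · exact (hcs.norm.pow 2).intervalIntegrable _ _
    · exact (continuous_const.mul hcP).intervalIntegrable _ _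
    · intro β hβ
      have hβ' : |β| ≤ η := abs_le.mpr hβ
      have h1 : 2 * h * |β| ≤ 1 := by
        have : (2 * (h : ℝ)) * |β| ≤ 2 * h * η := mul_le_mul_of_nonneg_left hβ' (by positivity)
        linarith
      have h2 := lowF h hh β h1
      simp only [hP]
      rw [norm_mul, mul_pow, div_mul_eq_mul_div, le_div_iff₀ hhp]
      have h3 := mul_le_mul_of_nonneg_left h2
        (sq_nonneg ‖∑ n ∈ Ioc 0 N, E n * ex ((n : ℝ) * β)‖)
      linarith
  have hbig : ∫ β in (-η)..η, ‖P β‖ ^ 2 ≤ ∫ β in (-(1 / 2) : ℝ)..(1 / 2), ‖P β‖ ^ 2 := by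
    apply intervalIntegral.integral_mono_interval (by linarith) (by linarith) hη2
    · exact Filter.Eventually.of_forall fun β => sq_nonneg _
    · exact hcP.intervalIntegrable _ _
  have hshift : ∫ β in (-(1 / 2) : ℝ)..(1 / 2), ‖P β‖ ^ 2 = ∫ β in (0 : ℝ)..1, ‖P β‖ ^ 2 := by
    have := hper.intervalIntegral_add_eq (-(1 / 2)) 0
    norm_num at this
    exact this
  have hpars : ∫ β in (0 : ℝ)..1, ‖P β‖ ^ 2 = ∑ k ∈ Icc 1 (N + h),
      ‖∑ n ∈ (Ioc 0 N).filter (fun n => k < n + h ∧ n ≤ k), E n‖ ^ 2 := by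
    rw [← pars]
    refine intervalIntegral.integral_congr fun β _ => ?_
    simp only [hP]
    rw [prodF]
  calc ∫ β in (-η)..η, ‖∑ n ∈ Ioc 0 N, E n * ex ((n : ℝ) * β)‖ ^ 2
      ≤ ∫ β in (-η)..η, 3 / (h : ℝ) ^ 2 * ‖P β‖ ^ 2 := hmono
    _ = 3 / (h : ℝ) ^ 2 * ∫ β in (-η)..η, ‖P β‖ ^ 2 := by
        rw [intervalIntegral.integral_const_mul]
    _ ≤ 3 / (h : ℝ) ^ 2 * ∫ β in (-(1 / 2) : ℝ)..(1 / 2), ‖P β‖ ^ 2 :=
        mul_le_mul_of_nonneg_left hbig (by positivity)
    _ = _ := by rw [hshift, hpars]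

end Pool.Agent.Helper69.SK
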